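import Pool.Agent.CritLog.Main

/-! # The value k(n) is asymptotic to log₂ n

`kmin n` is the number `k(n)` of the problem: the least `k` with `1 ≤ k ≤ n` such that every non-complete
`(n,k)`-graph has diameter two.

Upper bound (`CritLog/Frag.lean`, `CritLog/Up.lean`): in a non-complete `(n,k)`-graph of diameter at least three, the
number of inclusion-minimal small fragments whose neighbourhood contains a vertex set `S` is at least one for `|S| ≤ k`,
at most `n` for a suitable one-element `S`, and can be halved by adding one vertex to `S`.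

Lower bound (`CritLog/Blocks.lean`, `CritLog/Cov.lean`): three cliques glued along blocks, with a greedy covering of the
`k`-subsets of a set with `2 k² + 2 k + 1` elements by at most `2^(k+1) (k+1)²` sets with `k² + k` elements. -/

namespace Pool.Agent.Results.MP_6b834a_co.AsymptoticValue

open Pool.Agent.CritLog Filter Topology

theorem result :
    (∀ n : ℕ, 6 ≤ n →
      IsLeast {k | 1 ≤ k ∧ k ≤ n ∧ AllTwo n k} (kmin n) ∧
      Real.logb 2 n - 4 * Real.logb 2 (Real.logb 2 n + 1) - 4 ≤ kmin n ∧
      (kmin n : ℝ) ≤ ⌈Real.logb 2 n⌉ + 2) ∧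
    Tendsto (fun n : ℕ => (kmin n : ℝ) / Real.logb 2 n) atTop (𝓝 1) := by
  refine ⟨fun n hn => ⟨⟨kmin_mem (by omega), fun k hk => Nat.sInf_le hk⟩, le_kmin (by omega), ?_⟩,
    kmin_tendsto⟩
  have h1 : (kmin n : ℝ) ≤ Nat.clog 2 n + 2 := by exact_mod_cast kmin_le (n := n) (by omega)
  have h2 : ((Nat.clog 2 n : ℕ) : ℝ) = ((⌈Real.logb 2 n⌉ : ℤ) : ℝ) := by
    have h3 : (Nat.clog 2 n : ℕ) = ⌈Real.logb 2 n⌉₊ := by
      rw [← Real.natCeil_logb_natCast]
      norm_num
    have h4 : 0 ≤ Real.logb 2 (n : ℝ) :=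
      Real.logb_nonneg (by norm_num) (by exact_mod_cast (by omega : 1 ≤ n))
    rw [h3]
    exact_mod_cast Int.natCast_ceil_eq_ceil h4
  rw [h2] at h1
  exact h1

end Pool.Agent.Results.MP_6b834a_co.AsymptoticValue
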