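import Pool.Agent.CritDiam.Upper

/-! # (n,k)-graphs of diameter three

For every `k ≥ 2` and every `n ≥ 32 (k+2) 4^k` there is a k-critically n-connected graph of
diameter exactly three. In particular `(n,3)`-graphs of diameter three exist.

The graph consists of three cliques `A ∪ P`, `B ∪ Q` and `Z`. With `c` the number of
`(k+1)`-element subsets `I` of a set of `2k+3` parts, `Z` consists of the pairs `z_I, z_I'`,
`P` and `Q` are copies of (parts) x `[t]` joined by a perfect matching, `z_I` and `z_I'` are joined
to the parts of `P` and `Q` in `I`, to all of `A` except that `z_I'` is not joined to a special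
vertex `x`, and to all of `B` except that `z_I` is not joined to a special vertex `y`. The
neighbourhoods of the pairs are minimum separators that cover all sets of `k` vertices, and `x`,
`y` have distance three. -/

namespace Pool.Agent.Results.MP_6b834a_co.DiameterThree

open Pool.Agent.CritDiam

theorem result (k : ℕ) (hk : 2 ≤ k) (n : ℕ) (hn : 32 * (k + 2) * 4 ^ k ≤ n) :
    ∃ (V : Type) (_ : Finite V) (G : SimpleGraph V), IsNK n k G ∧ G.diam = 3 :=
  main k hk n hn

end Pool.Agent.Results.MP_6b834a_co.DiameterThree
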